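import Pool.Agent.Helper73.M3.Spec

/-!
# Part C: symmetric Mahler in `ℝ⁴` for the twin body, its polar computed by slices
-/

set_option autoImplicit false

noncomputable section

namespace Helper54.M3

open Matrix MeasureTheory Filter Topology Set Helper73.Twin W679AM H712MA
open scoped ENNReal Pointwise

variable {n : ℕ} {K : Set (Fin n → ℝ)}

/-- the slice at height `s` of (a set containing) the polar of the twin body -/
def sl (K : Set (Fin n → ℝ)) (s : ℝ) : Set (Fin n → ℝ) :=
  {y | s + hs K y ≤ 1 ∧ -s + hs K (-y) ≤ 1}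

lemma vol_plr_twin (h : OBody K) :
    volume (GB.plr (twin K)) ≤ ∫⁻ s : ℝ, volume (sl K s) := by
  have hcont := GAaux.hs_cont h
  have hne : K.Nonempty := ⟨0, GAaux.zmem h⟩
  set P : Set (ℝ × (Fin n → ℝ)) := {p | p.1 + hs K p.2 ≤ 1 ∧ -p.1 + hs K (-p.2) ≤ 1} with hP
  have hPc : IsClosed P :=
    (isClosed_le (continuous_fst.add (hcont.comp continuous_snd)) continuous_const).inter
      (isClosed_le (continuous_fst.neg.add (hcont.comp continuous_snd.neg)) continuous_const)
  have hmeas : MeasurableSet (GB.plr (twin K)) := (GB.plr_closed _).measurableSet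
  set F : ℝ → (Fin n → ℝ) → ℝ≥0∞ := fun s y => P.indicator (fun _ => 1) (s, y) with hF
  have hFm : Measurable (Function.uncurry F) := by
    have e : Function.uncurry F = P.indicator (fun _ => 1) := by
      ext ⟨s, y⟩; rfl
    rw [e]
    exact measurable_const.indicator hPc.measurableSet
  calc volume (GB.plr (twin K))
      = ∫⁻ v, (GB.plr (twin K)).indicator (fun _ => 1) v := by
        rw [lintegral_indicator hmeas, lintegral_const, one_mul, Measure.restrict_apply_univ]
    _ = ∫⁻ y : Fin n → ℝ, ∫⁻ s : ℝ,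
          (GB.plr (twin K)).indicator (fun _ => (1 : ℝ≥0∞)) (Fin.cons s y) :=
        lintegral_cons _ (measurable_const.indicator hmeas)
    _ ≤ ∫⁻ y : Fin n → ℝ, ∫⁻ s : ℝ, F s y := by
        refine lintegral_mono fun y => lintegral_mono fun s => ?_
        by_cases hm : (Fin.cons s y : Fin (n + 1) → ℝ) ∈ GB.plr (twin K)
        · have h1 : hs (twin K) (Fin.cons s y) ≤ 1 := by
            refine csSup_le ((show (twin K).Nonempty from
              (convexHull_nonempty_iff).2 ((hne.image _).inl)).image _) ?_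
            rintro _ ⟨x, hx, rfl⟩
            exact hm x hx
          have h2 := hs_twin h.comp h.conv hne s y
          have h3 : (s, y) ∈ P := ⟨((le_max_left _ _).trans h2).trans h1,
            ((le_max_right _ _).trans h2).trans h1⟩
          simp only [hF, indicator_of_mem hm, indicator_of_mem h3]
          exact le_rfl
        · simp only [indicator_of_notMem hm]
          exact zero_le
    _ = ∫⁻ s : ℝ, ∫⁻ y : Fin n → ℝ, F s y :=
        (lintegral_lintegral_swap hFm.aemeasurable).symm
    _ = ∫⁻ s : ℝ, volume (sl K s) := by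
        refine lintegral_congr fun s => ?_
        have e : (fun y => F s y) = (sl K s).indicator (fun _ => 1) := by
          funext y
          rfl
        have hms : MeasurableSet (sl K s) :=
          (hPc.preimage (Continuous.prodMk_right s)).measurableSet
        rw [e, lintegral_indicator hms, lintegral_const, one_mul, Measure.restrict_apply_univ]

lemma sl_neg (s : ℝ) : volume (sl K (-s)) = volume (sl K s) := by
  have e : sl K (-s) = -(sl K s) := by
    ext y
    simp only [sl, mem_ofPred_eq, Set.mem_neg, neg_neg]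
    exact and_comm
  rw [e, Measure.measure_neg]

lemma fold :
    ∫⁻ s : ℝ, volume (sl K s) ≤ 2 * ∫⁻ r in Iic (1 : ℝ), volume (sl K (1 - r)) := by
  have h1 : ∫⁻ s in Iic (0 : ℝ), volume (sl K s) = ∫⁻ s in Ici (0 : ℝ), volume (sl K s) := by
    have hmp := Measure.measurePreserving_neg (volume : Measure ℝ)
    have := hmp.setLIntegral_comp_preimage_emb (MeasurableEquiv.neg ℝ).measurableEmbedding
      (fun s => volume (sl K s)) (Iic 0)
    rw [← this]
    have e : (Neg.neg ⁻¹' Iic (0 : ℝ) : Set ℝ) = Ici 0 := by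
      ext x; simp
    rw [e]
    exact lintegral_congr fun s => sl_neg s
  have h2 : ∫⁻ s in Ici (0 : ℝ), volume (sl K s) = ∫⁻ r in Iic (1 : ℝ), volume (sl K (1 - r)) := by
    have hmp := Measure.measurePreserving_sub_left (volume : Measure ℝ) 1
    have := hmp.setLIntegral_comp_preimage_emb (MeasurableEquiv.subLeft (1 : ℝ)).measurableEmbedding
      (fun s => volume (sl K s)) (Ici 0)
    rw [← this]
    have e : ((fun x => 1 - x) ⁻¹' Ici (0 : ℝ) : Set ℝ) = Iic 1 := by
      ext x; simp
    rw [e]
  calc ∫⁻ s : ℝ, volume (sl K s)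
      = ∫⁻ s in Iic (0 : ℝ) ∪ Ici 0, volume (sl K s) := by
        rw [Iic_union_Ici, Measure.restrict_univ]
    _ ≤ _ := lintegral_union_le _ _ _
    _ = 2 * ∫⁻ r in Iic (1 : ℝ), volume (sl K (1 - r)) := by
        rw [h1, h2, two_mul]

/-- the part of the polar body where `r w ≤ 2` -/
def pt (K : Set (Fin n → ℝ)) (r : ℝ) : Set (Fin n → ℝ) :=
  {x | x ∈ GB.plr K ∧ r * (1 + hs K (-x)) ≤ 2}

lemma sl_le (h : OBody K) {r : ℝ} (hr : 0 < r) :
    volume (sl K (1 - r)) ≤ ENNReal.ofReal (r ^ n) * volume (pt K r) := by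
  have hsub : sl K (1 - r) ⊆ r • pt K r := by
    intro y hy
    obtain ⟨h1, h2⟩ := hy
    rw [mem_smul_set_iff_inv_smul_mem₀ hr.ne']
    refine ⟨fun a ha => ?_, ?_⟩
    · rw [dotProduct_smul, smul_eq_mul, inv_mul_le_iff₀ hr]
      have := GAaux.le_hs h ha y
      linarith
    · have h3 : hs K (-(r⁻¹ • y)) ≤ r⁻¹ * hs K (-y) := by
        refine GAaux.hs_le h _ _ fun a ha => ?_
        rw [← smul_neg, dotProduct_smul, smul_eq_mul]
        exact mul_le_mul_of_nonneg_left (GAaux.le_hs h ha _) (by positivity)
      have h4 : r * (r⁻¹ * hs K (-y)) = hs K (-y) := by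
        rw [← mul_assoc, mul_inv_cancel₀ hr.ne', one_mul]
      nlinarith
  refine (measure_mono hsub).trans (le_of_eq ?_)
  rw [Measure.addHaar_smul]
  simp only [Module.finrank_fintype_fun_eq_card, Fintype.card_fin]
  rw [abs_of_nonneg (by positivity)]

lemma sl_empty (h : OBody K) {r : ℝ} (hr : r < 0) : volume (sl K (1 - r)) = 0 := by
  have : sl K (1 - r) = ∅ := by
    ext y
    simp only [mem_empty_iff_false, iff_false]
    rintro ⟨h1, -⟩
    have := GAaux.hs_nonneg h y
    linarith
  rw [this, measure_empty]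

lemma lint_pow {c : ℝ} (hc : 0 ≤ c) :
    ∫⁻ r in Ioc (0 : ℝ) c, ENNReal.ofReal (r ^ n) = ENNReal.ofReal (c ^ (n + 1) / (n + 1)) := by
  rw [← ofReal_integral_eq_lintegral_ofReal]
  · rw [← intervalIntegral.integral_of_le hc, integral_pow]
    simp
  · exact (intervalIntegral.intervalIntegrable_pow n).1
  · rw [EventuallyLE, ae_restrict_iff' measurableSet_Ioc]
    refine ae_of_all _ fun t ht => ?_
    have : (0 : ℝ) ≤ t := ht.1.le
    show 0 ≤ _
    positivity

lemma main_le (h : OBody K) :
    ∫⁻ r in Iic (1 : ℝ), volume (sl K (1 - r)) ≤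
      ∫⁻ x in GB.plr K, ENNReal.ofReal ((2 / max (1 + hs K (-x)) 2) ^ (n + 1) / (n + 1)) := by
  have hcont := GAaux.hs_cont h
  set w : (Fin n → ℝ) → ℝ := fun x => 1 + hs K (-x) with hw
  have hwc : Continuous w := continuous_const.add (hcont.comp continuous_neg)
  have hLm : MeasurableSet (GB.plr K) := (GB.plr_closed _).measurableSet
  set Q : Set (ℝ × (Fin n → ℝ)) := {p | p.1 * w p.2 ≤ 2} with hQ
  have hQc : IsClosed Q :=
    isClosed_le (continuous_fst.mul (hwc.comp continuous_snd)) continuous_const
  set F : ℝ → (Fin n → ℝ) → ℝ≥0∞ := fun r x =>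
    ENNReal.ofReal (r ^ n) * Q.indicator (fun _ => 1) (r, x) with hF
  have hFm : Measurable (Function.uncurry F) := by
    have e : Function.uncurry F = fun p : ℝ × (Fin n → ℝ) =>
        ENNReal.ofReal (p.1 ^ n) * Q.indicator (fun _ => 1) p := by
      ext ⟨s, y⟩; rfl
    rw [e]
    exact ((by fun_prop : Continuous fun p : ℝ × (Fin n → ℝ) =>
      p.1 ^ n).measurable.ennreal_ofReal).mul (measurable_const.indicator hQc.measurableSet)
  have hne : ∀ᵐ r : ℝ, r ≠ 0 := by
    have := (countable_singleton (0 : ℝ)).ae_notMem volume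
    filter_upwards [this] with r hr using by simpa using hr
  have hpt : ∀ r, volume (pt K r) =
      ∫⁻ x in GB.plr K, Q.indicator (fun _ => (1 : ℝ≥0∞)) (r, x) := by
    intro r
    have hm : MeasurableSet {x : Fin n → ℝ | (r, x) ∈ Q} :=
      (hQc.preimage (Continuous.prodMk_right r)).measurableSet
    have e : (fun x => Q.indicator (fun _ => (1 : ℝ≥0∞)) (r, x)) =
        {x : Fin n → ℝ | (r, x) ∈ Q}.indicator (fun _ => 1) := by
      funext x; rfl
    rw [e, lintegral_indicator hm, lintegral_const, one_mul, Measure.restrict_apply_univ,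
      Measure.restrict_apply hm]
    congr 1
    ext x
    exact and_comm
  calc ∫⁻ r in Iic (1 : ℝ), volume (sl K (1 - r))
      ≤ ∫⁻ r in Iic (1 : ℝ), (Ioi (0 : ℝ)).indicator
          (fun r => ENNReal.ofReal (r ^ n) * volume (pt K r)) r := by
        refine lintegral_mono_ae ?_
        filter_upwards [ae_restrict_of_ae hne] with r hr
        rcases lt_or_gt_of_ne hr with h0 | h0
        · rw [sl_empty h h0]; exact zero_le
        · rw [indicator_of_mem (show r ∈ Ioi (0 : ℝ) from h0)]
          exact sl_le h h0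
    _ = ∫⁻ r in Ioc (0 : ℝ) 1, ENNReal.ofReal (r ^ n) * volume (pt K r) := by
        rw [lintegral_indicator measurableSet_Ioi, Measure.restrict_restrict measurableSet_Ioi,
          Ioi_inter_Iic]
    _ = ∫⁻ r in Ioc (0 : ℝ) 1, ∫⁻ x in GB.plr K, F r x := by
        refine lintegral_congr fun r => ?_
        rw [hpt, ← lintegral_const_mul]
        have hm : MeasurableSet {x : Fin n → ℝ | (r, x) ∈ Q} :=
          (hQc.preimage (Continuous.prodMk_right r)).measurableSet
        exact measurable_const.indicator hm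
    _ = ∫⁻ x in GB.plr K, ∫⁻ r in Ioc (0 : ℝ) 1, F r x :=
        lintegral_lintegral_swap hFm.aemeasurable
    _ ≤ _ := by
        refine lintegral_mono fun x => ?_
        have hm2 : 0 < max (w x) 2 := lt_of_lt_of_le (by norm_num) (le_max_right _ _)
        calc ∫⁻ r in Ioc (0 : ℝ) 1, F r x
            ≤ ∫⁻ r in Ioc (0 : ℝ) 1, (Iic (2 / max (w x) 2)).indicator
                (fun r => ENNReal.ofReal (r ^ n)) r := by
              refine setLIntegral_mono' measurableSet_Ioc fun r hr => ?_
              by_cases hq : (r, x) ∈ Q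
              · have hr2 : r ≤ 2 / max (w x) 2 := by
                  rw [le_div_iff₀ hm2]
                  rcases max_choice (w x) 2 with h3 | h3 <;> rw [h3]
                  · exact hq
                  · linarith [hr.2]
                simp only [hF, indicator_of_mem hq, mul_one]
                rw [indicator_of_mem (show r ∈ Iic (2 / max (w x) 2) from hr2)]
              · simp only [hF, indicator_of_notMem hq, mul_zero]
                exact zero_le
          _ ≤ ∫⁻ r in Ioc (0 : ℝ) (2 / max (w x) 2), ENNReal.ofReal (r ^ n) := by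
              rw [lintegral_indicator measurableSet_Iic, Measure.restrict_restrict measurableSet_Iic]
              refine lintegral_mono_set ?_
              rintro r ⟨h1, h2⟩
              exact ⟨h2.1, h1⟩
          _ = _ := lint_pow (by positivity)

/-- Part C. -/
theorem part_C : Helper73.M3.S_C := by
  intro K h
  have hi : (interior K).Nonempty := ⟨0, h.zero⟩
  have hS := twin_sbody h.comp h.conv hi
  have h1 := GB.coord sZ hS
  have h2 := (vol_plr_twin h).trans (fold.trans (mul_le_mul_right (main_le h) 2))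
  have e1 : ∀ x : Fin 3 → ℝ, ENNReal.ofReal ((2 / max (1 + hs K (-x)) 2) ^ (3 + 1) / ((3 : ℕ) + 1)) =
      ENNReal.ofReal (1 / 4) * ENNReal.ofReal (16 / (max (1 + hs K (-x)) 2) ^ 4) := by
    intro x
    rw [← ENNReal.ofReal_mul (by norm_num)]
    congr 1
    rw [div_pow]
    push_cast
    ring
  rw [lintegral_congr e1, lintegral_const_mul' _ _ ENNReal.ofReal_ne_top] at h2
  set I := ∫⁻ x in GB.plr K, ENNReal.ofReal (16 / (max (1 + hs K (-x)) 2) ^ 4) with hI
  have h3 : ENNReal.ofReal ((4 : ℝ) ^ (3 + 1) / (3 + 1).factorial) = ENNReal.ofReal (32 / 3) := by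
    congr 1
    norm_num [Nat.factorial]
  rw [h3] at h1
  calc ENNReal.ofReal (64 / 3) = 2 * ENNReal.ofReal (32 / 3) := by
        rw [show (2 : ℝ≥0∞) = ENNReal.ofReal 2 by simp, ← ENNReal.ofReal_mul (by norm_num)]
        norm_num
    _ ≤ 2 * (volume (twin K) * volume (GB.plr (twin K))) := mul_le_mul_right h1 _
    _ ≤ 2 * (volume (twin K) * (2 * (ENNReal.ofReal (1 / 4) * I))) := by
        gcongr
    _ = (2 * 2 * ENNReal.ofReal (1 / 4)) * (volume (twin K) * I) := by ring
    _ = volume (twin K) * I := by
        rw [show (2 : ℝ≥0∞) = ENNReal.ofReal 2 by simp, ← ENNReal.ofReal_mul (by norm_num),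
          ← ENNReal.ofReal_mul (by norm_num)]
        norm_num

end Helper54.M3

end
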